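import Pool.Agent.D0H19.SM.Loc
import Pool.Agent.D0H19.SL.Stm
import Pool.Agent.D0H64.WS.Ver

/-!
# Project SM: the congruence condition for finitely many places
-/

set_option autoImplicit false

open Polynomial TensorProduct NumberField

namespace Pool.Agent.D0H19.SM

open Pool.Agent.D0H15.SK
open Pool.Agent.D0H64.WS (Dat FldP)
open Pool.Agent.D0H19.SL (S_PRIM)
open IntermediateField (adjoin)
open IsDedekindDomain HeightOneSpectrum

open scoped WithZero

/-- the local conditions -/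
def Om {K : Type} [Field K] [NumberField K] {ι : Type} (v : ι → HeightOneSpectrum (𝓞 K)) (A : ι → Type)
    [∀ i, CommRing (A i)] [∀ i, Algebra ((v i).adicCompletion K) (A i)]
    (L : IntermediateField K (AlgebraicClosure K)) : Prop :=
  ∀ i, Nonempty ((v i).adicCompletion K ⊗[K] L ≃ₐ[(v i).adicCompletion K] A i)

/-- the class modulo a power of `v` for an etale algebra -/
theorem loca (hNEAR : S_NEARK) (hTRZ : S_TRZK) (hTEN : S_TENK) (hPRIM : S_PRIM) (K : Type) [Field K] [NumberField K]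
    (v : HeightOneSpectrum (𝓞 K)) {n : ℕ} (hn : 3 ≤ n) (A : Type) [CommRing A] [Algebra (v.adicCompletion K) A]
    (hA : IsReduced A) (hd : Module.finrank (v.adicCompletion K) A = n) :
    ∃ (b : Fin (n - 1) → 𝓞 K) (δ : Fin (n - 1) → ℤᵐ⁰), (∀ i, 0 < δ i) ∧ ∀ a : Fin (n - 1) → 𝓞 K,
      (∀ i, v.valuation K (algebraMap (𝓞 K) K (a i - b i)) < δ i) → Irreducible (polK n a) →
      ∀ θ : AlgebraicClosure K, aeval θ (polK n a) = 0 →
        Nonempty (v.adicCompletion K ⊗[K] (adjoin K {θ}) ≃ₐ[v.adicCompletion K] A) := by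
  have : CharZero (v.adicCompletion K) := charZero_of_injective_algebraMap
    (algebraMap K (v.adicCompletion K)).injective
  have : Module.Finite (v.adicCompletion K) A := Module.finite_of_finrank_pos (by omega)
  obtain ⟨f, h1, h2, h3, ⟨e⟩⟩ := hPRIM (v.adicCompletion K) A
  obtain ⟨b, δ, hδ, h4⟩ := locf K v hNEAR hTRZ hn f h1 (h2.trans hd) h3
  refine ⟨b, δ, hδ, fun a ha hirr θ hθ => ?_⟩
  obtain ⟨e1⟩ := hTEN K n a θ (by omega) hirr hθ (v.adicCompletion K)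
  obtain ⟨e2⟩ := h4 a ha
  exact ⟨(e1.trans e2).trans e⟩

/-- a congruence condition which forces the symmetric group and all the given completions -/
theorem dat (hSN : S_SN2K) (hNEAR : S_NEARK) (hTRZ : S_TRZK) (hCLS : S_CLSK) (hTEN : S_TENK) (hPRIM : S_PRIM)
    (K : Type) [Field K] [NumberField K] (n : ℕ) (hn : 4 ≤ n) {ι : Type} [Finite ι] (v : ι → HeightOneSpectrum (𝓞 K))
    (hinj : Function.Injective v) (A : ι → Type) [∀ i, CommRing (A i)] [∀ i, Algebra ((v i).adicCompletion K) (A i)]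
    (hA : ∀ i, IsReduced (A i)) (hd : ∀ i, Module.finrank ((v i).adicCompletion K) (A i) = n) :
    Dat K n (Om v A) := by
  classical
  obtain ⟨m, hm1, hm⟩ := hCLS K ι v hinj
  obtain ⟨q₁, hq₁, hqm, a₁, h₁⟩ := hSN K n m hn
  choose b δ hδ hloc using fun i => loca hNEAR hTRZ hTEN hPRIM K (v i) (by omega : 3 ≤ n) (A i) (hA i) (hd i)
  choose t c hc using fun j : Fin (n - 1) => hm (fun i => b i j) (fun i => δ i j) (fun i => hδ i j)
  set Q : ℕ := m ^ (∑ j, t j) with hQ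
  have hQ0 : 0 < Q := pow_pos hm1 _
  have hcop0 : Nat.Coprime q₁ Q := by
    apply Nat.Coprime.pow_right
    rw [Nat.coprime_iff_gcd_eq_one]
    by_contra hne
    obtain ⟨x, hx, hxd⟩ := Nat.exists_prime_and_dvd hne
    have h1 := hqm x hx (hxd.trans (Nat.gcd_dvd_left _ _))
    have h2 := Nat.le_of_dvd hm1 (hxd.trans (Nat.gcd_dvd_right _ _))
    omega
  have hcop : IsCoprime (q₁ : ℤ) (Q : ℤ) := Nat.isCoprime_iff_coprime.2 hcop0
  obtain ⟨w, u, huv⟩ := hcop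
  have huv' : (w : 𝓞 K) * (q₁ : 𝓞 K) + (u : 𝓞 K) * (Q : 𝓞 K) = 1 := by
    exact_mod_cast congrArg (fun t : ℤ => (t : 𝓞 K)) huv
  refine ⟨q₁ * Q, Nat.mul_pos hq₁ hQ0,
    fun i => (u : 𝓞 K) * (Q : 𝓞 K) * a₁ i + (w : 𝓞 K) * (q₁ : 𝓞 K) * c i, fun a ha => ?_⟩
  have k1 : ∀ i, (q₁ : 𝓞 K) ∣ a i - a₁ i := by
    intro i
    obtain ⟨z, hz⟩ := ha i
    refine ⟨(Q : 𝓞 K) * z + (w : 𝓞 K) * (c i - a₁ i), ?_⟩
    push_cast at hz huv' ⊢
    linear_combination hz + a₁ i * huv'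
  have k2 : ∀ i, (Q : 𝓞 K) ∣ a i - c i := by
    intro i
    obtain ⟨z, hz⟩ := ha i
    refine ⟨(q₁ : 𝓞 K) * z + (u : 𝓞 K) * (a₁ i - c i), ?_⟩
    push_cast at hz huv' ⊢
    linear_combination hz + c i * huv'
  obtain ⟨hirr, hs⟩ := h₁ a k1
  refine ⟨hirr, fun θ hθ => ⟨hs θ hθ, fun i => ?_⟩⟩
  refine hloc i a (fun j => ?_) hirr θ hθ
  refine hc j (a j) ?_ i
  refine dvd_trans ?_ (k2 j)
  rw [hQ]
  have h3 : m ^ t j ∣ m ^ (∑ j, t j) :=
    pow_dvd_pow m (Finset.single_le_sum (f := t) (fun _ _ => Nat.zero_le _) (Finset.mem_univ j))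
  exact_mod_cast (Nat.cast_dvd_cast (α := 𝓞 K) h3)

end Pool.Agent.D0H19.SM
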