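import Pool.Agent.D0H19.SM.Stm
import Pool.Agent.D0H15.SK.Basic

/-!
# Project SM: a congruence condition modulo a power of the place `v` which forces a given completion
-/

set_option autoImplicit false

open Polynomial TensorProduct NumberField

namespace Pool.Agent.D0H19.SM

open Pool.Agent.D0H15.SK
open IntermediateField (adjoin)
open IsDedekindDomain HeightOneSpectrum

open scoped WithZero

section

variable (K : Type) [Field K] [NumberField K] (v : HeightOneSpectrum (𝓞 K))

/-- the completion as a nontrivially normed field -/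
noncomputable abbrev nnf : NontriviallyNormedField (v.adicCompletion K) :=
  Valued.toNontriviallyNormedField (L := v.adicCompletion K) (Γ₀ := ℤᵐ⁰)

theorem nle (x y : v.adicCompletion K) : letI := nnf K v; ‖x‖ ≤ ‖y‖ ↔ Valued.v x ≤ Valued.v y :=
  Valued.toNormedField.norm_le_iff

theorem nle1 (x : v.adicCompletion K) : letI := nnf K v; ‖x‖ ≤ 1 ↔ Valued.v x ≤ 1 :=
  Valued.toNormedField.norm_le_one_iff

theorem nlt (x y : v.adicCompletion K) : letI := nnf K v; ‖x‖ < ‖y‖ ↔ Valued.v x < Valued.v y :=
  Valued.toNormedField.norm_lt_iff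

/-- approximation of a local integer -/
theorem apx (y : v.adicCompletion K) (hy : letI := nnf K v; ‖y‖ ≤ 1) (ε : ℝ) (hε : 0 < ε) :
    letI := nnf K v
    ∃ (r : 𝓞 K) (δ : ℤᵐ⁰), 0 < δ ∧ ∀ a : 𝓞 K, v.valuation K (algebraMap (𝓞 K) K (a - r)) < δ →
      ‖algebraMap K (v.adicCompletion K) (algebraMap (𝓞 K) K a) - y‖ ≤ ε := by
  letI := nnf K v
  obtain ⟨π, hπ0, hπ1⟩ := NormedField.exists_norm_lt (v.adicCompletion K) (show 0 < min (ε / 3) 1 by positivity)
  have hπε : ‖π‖ ≤ ε / 3 := hπ1.le.trans (min_le_left _ _)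
  have hπ11 : ‖π‖ ≤ 1 := hπ1.le.trans (min_le_right _ _)
  have hδ : (Valued.v π : ℤᵐ⁰) ≠ 0 := by
    rw [Ne, map_eq_zero]
    exact norm_pos_iff.1 hπ0
  -- an element of `K`
  obtain ⟨z, hz⟩ := Metric.denseRange_iff.1 (HeightOneSpectrum.denseRange_algebraMap (R := 𝓞 K) K v) y ‖π‖ hπ0
  rw [dist_comm, dist_eq_norm] at hz
  have hz1 : v.valuation K z ≤ 1 := by
    have h1 : (Valued.v (algebraMap K (v.adicCompletion K) z) : ℤᵐ⁰) = v.valuation K z :=
      HeightOneSpectrum.valuedAdicCompletion_eq_valuation' v z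
    rw [← h1]
    have h2 : algebraMap K (v.adicCompletion K) z = (algebraMap K (v.adicCompletion K) z - y) + y := by ring
    rw [h2]
    refine (Valued.v.map_add _ _).trans (max_le ?_ ((nle1 K v y).1 hy))
    exact (nle1 K v _).1 (hz.le.trans hπ11)
  obtain ⟨r, hr⟩ := v.exists_valuation_sub_lt_of_integer hz1 (Units.mk0 _ hδ)
  rw [Units.val_mk0] at hr
  refine ⟨r, Valued.v π, zero_lt_iff.2 hδ, fun a ha => ?_⟩
  have key : ∀ w : K, v.valuation K w < Valued.v π → ‖algebraMap K (v.adicCompletion K) w‖ ≤ ε / 3 := by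
    intro w hw
    refine le_trans ?_ hπε
    rw [nle K v]
    have h1 : (Valued.v (algebraMap K (v.adicCompletion K) w) : ℤᵐ⁰) = v.valuation K w :=
      HeightOneSpectrum.valuedAdicCompletion_eq_valuation' v w
    rw [h1]
    exact hw.le
  have e1 := key _ ha
  have e2 := key _ hr
  have e3 : algebraMap K (v.adicCompletion K) (algebraMap (𝓞 K) K a) - y =
      algebraMap K (v.adicCompletion K) (algebraMap (𝓞 K) K (a - r)) +
      algebraMap K (v.adicCompletion K) (algebraMap (𝓞 K) K r - z) +
      (algebraMap K (v.adicCompletion K) z - y) := by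
    simp only [map_sub]
    ring
  rw [e3]
  refine (norm_add₃_le).trans ?_
  have e4 := hz.le.trans hπε
  linarith

/-- the class modulo a power of `v` for a separable polynomial -/
theorem locf (hNEAR : S_NEARK) (hTRZ : S_TRZK) {n : ℕ} (hn : 3 ≤ n) (f : (v.adicCompletion K)[X]) (hf : f.Monic)
    (hd : f.natDegree = n) (hs : f.Separable) :
    ∃ (b : Fin (n - 1) → 𝓞 K) (δ : Fin (n - 1) → ℤᵐ⁰), (∀ i, 0 < δ i) ∧ ∀ a : Fin (n - 1) → 𝓞 K,
      (∀ i, v.valuation K (algebraMap (𝓞 K) K (a i - b i)) < δ i) →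
      Nonempty (AdjoinRoot ((polK n a).map (algebraMap K (v.adicCompletion K))) ≃ₐ[v.adicCompletion K]
        AdjoinRoot f) := by
  letI := nnf K v
  have : CharZero (v.adicCompletion K) := charZero_of_injective_algebraMap
    (algebraMap K (v.adicCompletion K)).injective
  obtain ⟨F, hF1, hF2, hF3, hF4, hF5, ⟨e⟩⟩ := hTRZ (v.adicCompletion K) n f (by omega) hf hd hs
  obtain ⟨ε, hε, h⟩ := hNEAR (v.adicCompletion K) n F hF1 hF2 hF3
  choose b δ hδ hb using fun i : Fin (n - 1) => apx K v (F.coeff i) (hF4 i) ε hε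
  refine ⟨b, δ, hδ, fun a ha => ?_⟩
  obtain ⟨e2⟩ := h ((polK n a).map (algebraMap K (v.adicCompletion K))) ((polK_monic n (by omega) a).map _)
    (by rw [(polK_monic n (by omega) a).natDegree_map, polK_natDegree n (by omega)]) (by
    intro i
    rcases lt_trichotomy i n with hi | hi | hi
    · rcases Nat.lt_or_ge i (n - 1) with h1 | h1
      · have h2 := hb ⟨i, h1⟩ (a ⟨i, h1⟩) (ha ⟨i, h1⟩)
        have h3 : (polK n a).coeff i = algebraMap (𝓞 K) K (a ⟨i, h1⟩) := by
          have := pol_coeff n a ⟨i, h1⟩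
          simp only at this
          unfold polK
          rw [coeff_map, this]
        rw [coeff_map, h3]
        exact h2
      · have h2 : i = n - 1 := by omega
        have h3 : (polK n a).coeff (n - 1) = 0 := by
          unfold polK
          rw [coeff_map, pol_coeff_pred n (by omega) a, map_zero]
        rw [coeff_map, h2, h3, hF5, map_zero, sub_zero, norm_zero]
        exact hε.le
    · have h1 : ((polK n a).map (algebraMap K (v.adicCompletion K))).coeff i = 1 := by
        have h2 := ((polK_monic n (by omega) a).map (algebraMap K (v.adicCompletion K))).coeff_natDegree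
        rw [(polK_monic n (by omega) a).natDegree_map, polK_natDegree n (by omega)] at h2
        rw [hi, h2]
      have h2 : F.coeff i = 1 := by
        have := hF1.coeff_natDegree
        rw [hF2] at this
        rw [hi, this]
      rw [h1, h2, sub_self, norm_zero]
      exact hε.le
    · rw [coeff_eq_zero_of_natDegree_lt (by
        rw [(polK_monic n (by omega) a).natDegree_map, polK_natDegree n (by omega)]
        exact hi), coeff_eq_zero_of_natDegree_lt (by rw [hF2]; exact hi), sub_self, norm_zero]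
      exact hε.le)
  exact ⟨e2.trans e⟩

end

end Pool.Agent.D0H19.SM
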