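import Pool.Agent.D0H19.SM.Stm
import Pool.Agent.D0H19.SL.Near

/-!
# Project SM, module NEARK: Krasner's lemma for etale algebras over a complete field
-/

set_option autoImplicit false

open Polynomial Filter Topology

namespace Pool.Agent.D0H19.SM

open Pool.Agent.D0H19.SL (ph dph near_abs aeval_eq aeval_deriv_eq iso_of)

theorem t_NEARK : S_NEARK := by
  intro k _ _ n F hF hn hs
  subst hn
  set A := AdjoinRoot F with hA
  set b : Module.Basis (Fin F.natDegree) k A := (AdjoinRoot.powerBasis' hF).basis with hb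
  have hbi : ∀ i, b i = AdjoinRoot.root F ^ (i : ℕ) := fun i =>
    (AdjoinRoot.powerBasis' hF).basis_eq_pow i
  have hroot : aeval (AdjoinRoot.root F) F = 0 := by
    rw [AdjoinRoot.aeval_eq, AdjoinRoot.mk_self]
  have hunit : IsUnit (aeval (AdjoinRoot.root F) (derivative F)) := by
    obtain ⟨u, v, huv⟩ := hs
    have h1 := congrArg (aeval (AdjoinRoot.root F)) huv
    rw [map_add, map_mul, map_mul, hroot, mul_zero, zero_add, map_one] at h1
    exact IsUnit.of_mul_eq_one_right _ h1
  letI i1 : NormedRing (Matrix (Fin F.natDegree) (Fin F.natDegree) k) := Matrix.linftyOpNormedRing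
  letI i2 : NormedAlgebra k (Matrix (Fin F.natDegree) (Fin F.natDegree) k) := Matrix.linftyOpNormedAlgebra
  letI i3 : NormedCommRing A := NormedCommRing.induced A (Matrix (Fin F.natDegree) (Fin F.natDegree) k)
    (Algebra.leftMulMatrix b) (Algebra.leftMulMatrix_injective b)
  letI i4 : NormedAlgebra k A := NormedAlgebra.induced k A
    (Matrix (Fin F.natDegree) (Fin F.natDegree) k) (Algebra.leftMulMatrix b)
  have : FiniteDimensional k A := (AdjoinRoot.powerBasis' hF).finite
  have key := near_abs (k := k) (A := A) F.natDegree b (AdjoinRoot.root F) hbi (fun i => F.coeff i)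
    (by
      have h1 := aeval_eq hF rfl (AdjoinRoot.root F)
      rw [hroot] at h1
      exact h1.symm)
    (by
      have h1 := aeval_deriv_eq hF rfl (AdjoinRoot.root F)
      rw [h1] at hunit
      exact hunit)
  obtain ⟨ε, hε, h⟩ := Metric.eventually_nhds_iff.1 key
  refine ⟨ε / 2, half_pos hε, fun G hG hGn hclose => ?_⟩
  obtain ⟨β, h1, h2⟩ := h (y := fun i : Fin F.natDegree => G.coeff i) (by
    refine lt_of_le_of_lt ((dist_pi_le_iff (half_pos hε).le).2 fun i => ?_) (half_lt_self hε)
    rw [dist_eq_norm]
    exact hclose i)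
  refine iso_of hG hGn b β ?_ h2
  rw [aeval_eq hG hGn β]
  exact h1

end Pool.Agent.D0H19.SM
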