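import Mathlib
import Pool.Agent.D0H15.SK.Stm

/-!
# Project SM: `S_n`-extensions of degree `n` of any number field `K` with ARBITRARY given completions at finitely many
finite places (relative version of project SL)

Final theorem: for `n ≥ n₀`, every number field `K`, different finite places `v_i` of `K` and ANY etale
`K_(v_i)`-algebras `A_i` of dimension `n` (commutative, reduced), there are for large `X` at least
`X ^ (1/2 + 4/(3n) - 16 (log n)^2/n^2)` extensions `L` of `K` of degree `n` with group `S_n`, `|disc| ≤ X`, and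
`K_(v_i) ⊗ L ≅ A_i` for all `i`.

Prove `theorem t_XXX : S_XXX` in `Pool/Agent/D0H<your number>/SM/XXX.lean`.  Assembly: helper19 (with `expo_of` in
`Pool/Agent/D0H64/WS/Exp.lean`).
-/

set_option autoImplicit false

open Polynomial TensorProduct NumberField

namespace Pool.Agent.D0H19.SM

open Pool.Agent.D0H15.SK (pol polK Sym)
open IntermediateField (adjoin)
open IsDedekindDomain (HeightOneSpectrum)

/-- **1 SN2K** (12 min).  `t_SN` in `Pool/Agent/D0H42/SFK/SN.lean` with all three primes larger than `W`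
(`Nat.exists_infinite_primes (n + W + 1)`). -/
def S_SN2K : Prop := ∀ (K : Type) [Field K] [NumberField K] (n W : ℕ), 4 ≤ n →
  ∃ q : ℕ, 1 ≤ q ∧ (∀ x : ℕ, x.Prime → x ∣ q → W < x) ∧ ∃ a0 : Fin (n - 1) → 𝓞 K, ∀ a : Fin (n - 1) → 𝓞 K,
    (∀ i, (q : 𝓞 K) ∣ a i - a0 i) → Irreducible (polK n a) ∧
      ∀ θ : AlgebraicClosure K, aeval θ (polK n a) = 0 → Sym (adjoin K {θ})

/-- **2 NEARK** (helper19).  `Pool/Agent/D0H19/SL/Near.lean` over any complete field. -/
def S_NEARK : Prop := ∀ (k : Type) [NontriviallyNormedField k] [CompleteSpace k] (n : ℕ) (F : k[X]), F.Monic →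
  F.natDegree = n → F.Separable → ∃ ε : ℝ, 0 < ε ∧ ∀ G : k[X], G.Monic → G.natDegree = n →
    (∀ i, ‖G.coeff i - F.coeff i‖ ≤ ε) → Nonempty (AdjoinRoot G ≃ₐ[k] AdjoinRoot F)

/-- **3 TRZK** (12 min).  `t_TRZ` in `Pool/Agent/D0H51/SL/Trz.lean` with `u ∈ k` of small absolute value
(`NormedField.exists_norm_lt`) instead of `p ^ k`; all lemmas `iso_subst`, `sep_subst`, `coeff_subst`, `coeff_top` there are
over any field. -/
def S_TRZK : Prop := ∀ (k : Type) [NontriviallyNormedField k] [CharZero k] (n : ℕ) (f : k[X]), 2 ≤ n → f.Monic →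
  f.natDegree = n → f.Separable → ∃ F : k[X], F.Monic ∧ F.natDegree = n ∧ F.Separable ∧ (∀ i, ‖F.coeff i‖ ≤ 1) ∧
    F.coeff (n - 1) = 0 ∧ Nonempty (AdjoinRoot F ≃ₐ[k] AdjoinRoot f)

/-- **4 CLSK** (20 min; Chinese remainder theorem for places).

PROOF. `m = ∏ i, absNorm (v i).asIdeal` (`ι` finite); `(m : 𝓞 K) ∈ (v i).asIdeal` (`Ideal.absNorm_mem`), `m ≥ 1`.
`t` with `exp (-t) < δ i` for all `i` (`ℤᵐ⁰`); `c` with `c - b i ∈ (v i).asIdeal ^ t` for all `i`
(`IsDedekindDomain.exists_forall_sub_mem_ideal`, `v` injective).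
If `m ^ t ∣ a - c`, then `a - b i = (a - c) + (c - b i) ∈ (v i).asIdeal ^ t`, so
`(v i).intValuation (a - b i) ≤ exp (-t)` (`intValuation_le_pow_iff_mem`), `valuation_of_algebraMap`. -/
def S_CLSK : Prop := ∀ (K : Type) [Field K] [NumberField K] (ι : Type) [Finite ι] (v : ι → HeightOneSpectrum (𝓞 K)),
  Function.Injective v → ∃ m : ℕ, 1 ≤ m ∧ ∀ (b : ι → 𝓞 K) (δ : ι → (WithZero (Multiplicative ℤ))), (∀ i, 0 < δ i) →
    ∃ (t : ℕ) (c : 𝓞 K), ∀ a : 𝓞 K, ((m ^ t : ℕ) : 𝓞 K) ∣ a - c →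
      ∀ i, (v i).valuation K (algebraMap (𝓞 K) K (a - b i)) < δ i

/-- **5 TENK** (helper19): `K_v ⊗ K(θ) = K_v[x] / (polK n a)`. -/
def S_TENK : Prop := ∀ (K : Type) [Field K] [NumberField K] (n : ℕ) (a : Fin (n - 1) → 𝓞 K) (θ : AlgebraicClosure K),
  2 ≤ n → Irreducible (polK n a) → aeval θ (polK n a) = 0 → ∀ (k : Type) [Field k] [Algebra K k],
    Nonempty (k ⊗[K] (adjoin K {θ}) ≃ₐ[k] AdjoinRoot ((polK n a).map (algebraMap K k)))

end Pool.Agent.D0H19.SM
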