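import Pool.Agent.D0H19.SM.Stm
import Pool.Agent.D0H19.SL.Near
import Pool.Agent.D0H15.SK.Basic

/-!
# Project SM, module TENK: `k ⊗ K(θ) = k[x] / (polK n a)`
-/

set_option autoImplicit false

open Polynomial TensorProduct NumberField

namespace Pool.Agent.D0H19.SM

open Pool.Agent.D0H15.SK
open Pool.Agent.D0H19.SL (iso_of)
open IntermediateField (adjoin)

theorem t_TENK : S_TENK := by
  intro K _ _ n a θ hn hirr hθ k _ _
  have hint : IsIntegral K θ := ⟨polK n a, polK_monic n hn a, hθ⟩
  have hmin : minpoly K θ = polK n a := minpoly_root n hn a θ hirr hθ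
  have hdim : (IntermediateField.adjoin.powerBasis hint).dim = n := by
    rw [IntermediateField.adjoin.powerBasis_dim, hmin, polK_natDegree n hn]
  set L := adjoin K {θ} with hL
  set g : L := IntermediateField.AdjoinSimple.gen K θ with hg
  have hgen : aeval g (polK n a) = 0 := by
    apply (algebraMap L (AlgebraicClosure K)).injective
    rw [map_zero, ← hθ]
    have : algebraMap L (AlgebraicClosure K) g = θ := IntermediateField.AdjoinSimple.algebraMap_gen K θ
    rw [← aeval_algebraMap_apply, this]
  set B : Module.Basis (Fin n) k (k ⊗[K] L) :=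
    (Algebra.TensorProduct.basis k (IntermediateField.adjoin.powerBasis hint).basis).reindex
      (finCongr hdim) with hB
  set β : k ⊗[K] L := 1 ⊗ₜ g with hβ
  have hBi : (fun i : Fin n => β ^ (i : ℕ)) = B := by
    funext i
    rw [hB, Module.Basis.reindex_apply, Algebra.TensorProduct.basis_apply, PowerBasis.basis_eq_pow, hβ,
      Algebra.TensorProduct.tmul_pow, one_pow, IntermediateField.adjoin.powerBasis_gen]
    rfl
  set G : k[X] := (polK n a).map (algebraMap K k) with hG
  have hmon : (polK n a).Monic := polK_monic n hn a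
  have hdeg : (polK n a).natDegree = n := polK_natDegree n hn a
  have h0 : aeval β G = 0 := by
    have h1 : aeval β G = aeval β (polK n a) := by
      rw [hG]
      exact aeval_map_algebraMap k β (polK n a)
    rw [h1]
    have h2 : aeval ((Algebra.TensorProduct.includeRight : L →ₐ[K] k ⊗[K] L) g) (polK n a) =
        (Algebra.TensorProduct.includeRight : L →ₐ[K] k ⊗[K] L) (aeval g (polK n a)) :=
      aeval_algHom_apply _ _ _
    rw [hgen, map_zero] at h2
    exact h2
  obtain ⟨e⟩ := iso_of (hmon.map _) (by rw [hmon.natDegree_map, hdeg]) B β h0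
    (by rw [hBi, B.det_self]; exact one_ne_zero)
  exact ⟨e.symm⟩

end Pool.Agent.D0H19.SM
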